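import Mathlib

/-!
# Inhomogeneous multispecies TASEP on a ring: the least probable arrangement of the large entries need
not be cyclically descending

Counterexample: `n = 6`, `k = 2`, inverse rates `t = (1, 1, 1, 10, 1, 1)`, and the event `E` that entry `1`
is at position `1` and entry `2` at position `5`. The stationary weights (up to a common factor) are
integers; the arrangement `6 5 3 4` of the large entries (word `165324`) has weight `395`, and every
cyclically descending arrangement has weight at least `410`.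

In the file the entries and the positions are numbered from `0`.
-/

set_option autoImplicit false

namespace Pool.Agent.Results.MP_01b7fc_pr.DescendingNotMinimal

open Finset List

/-- The words of length `n` that are permutations of the entries `0, …, n - 1`: `w p` is the entry at
position `p`. -/
abbrev Word (n : ℕ) : Type := Equiv.Perm (Fin n)

/-- The clock of entry `i` rings: `i` (at position `w.symm i`) swaps places with its cyclic left neighbour
if that neighbour is larger than `i`. -/
def ring {n : ℕ} [NeZero n] (w : Word n) (i : Fin n) : Word n :=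
  if i < w (w.symm i - 1) then w * Equiv.swap (w.symm i) (w.symm i - 1) else w

/-- `π` is a stationary distribution of the multispecies TASEP with inverse rates `t`. -/
def IsStationary {n : ℕ} [NeZero n] (t : Fin n → ℝ) (π : Word n → ℝ) : Prop :=
  (∀ w, 0 ≤ π w) ∧ ∑ w, π w = 1 ∧
    ∀ f : Word n → ℝ, ∑ w, π w * ∑ i, (t i)⁻¹ * (f (ring w i) - f w) = 0

/-- The event `E` that the small entries `0, …, k - 1` occupy the positions `e 0, …, e (k - 1)`. -/
def event {n k : ℕ} (e : Fin k ↪ Fin n) : Set (Word n) := {w | ∀ i : Fin k, (w (e i) : ℕ) = i}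

/-- The arrangement of the large entries (those that are at least `k`), read from left to right. -/
def arrangement {n : ℕ} (k : ℕ) (w : Word n) : List ℕ :=
  (List.ofFn fun p => (w p : ℕ)).filter fun a => k ≤ a

/-- The ascending list `k, k + 1, …, n - 1` of the large entries. -/
def largeList (n k : ℕ) : List ℕ := (List.range n).filter fun a => k ≤ a

open Classical in
/-- The conditional probability, given the event `E`, that the arrangement of the large entries is
`σ`. -/
noncomputable def condProb {n k : ℕ} (π : Word n → ℝ) (e : Fin k ↪ Fin n) (σ : List ℕ) : ℝ :=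
  (∑ w with w ∈ event e ∧ arrangement k w = σ, π w) / ∑ w with w ∈ event e, π w

/-- The assertion of the problem: for all `n`, `k`, all inverse rates, the stationary distribution and all
events `E`, the maximum of the conditional probability over the arrangements of the large entries is
attained at a cyclically ascending one, and the minimum at a cyclically descending one. -/
def Q1 : Prop :=
  ∀ (n : ℕ) [NeZero n] (k : ℕ), 2 ≤ n → k < n → ∀ t : Fin n → ℝ, (∀ i, 0 < t i) →
    ∀ π : Word n → ℝ, IsStationary t π → ∀ e : Fin k ↪ Fin n,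
      (∃ σ, σ ~r largeList n k ∧ ∀ τ, τ ~ largeList n k → condProb π e τ ≤ condProb π e σ) ∧
      ∃ σ, σ ~r (largeList n k).reverse ∧ ∀ τ, τ ~ largeList n k → condProb π e σ ≤ condProb π e τ

/-- The table of the stationary weights of the words `0 a b c d e` (key: the decimal number
`abcde`). -/
def table : List (ℕ × ℕ) :=
  [(12345, 95200), (12354, 6800), (12435, 23000), (12453, 70000), (12534, 74500), (12543, 5000),
    (13245, 48020), (13254, 3430), (13425, 24430), (13452, 9520), (13524, 5420), (13542, 680),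
    (14235, 9100), (14253, 44000), (14325, 3200), (14352, 2300), (14523, 25900), (14532, 7000),
    (15234, 51650), (15243, 8500), (15324, 21550), (15342, 7450), (15423, 1850), (15432, 500),
    (21345, 19040), (21354, 1360), (21435, 4600), (21453, 14000), (21534, 14900), (21543, 1000),
    (23145, 26740), (23154, 1910), (23415, 26510), (23451, 19040), (23514, 3940), (23541, 1360),
    (24135, 5960), (24153, 21400), (24315, 4900), (24351, 4600), (24513, 23240), (24531, 14000),
    (25134, 23740), (25143, 2600), (25314, 22100), (25341, 14900), (25413, 1660), (25431, 1000),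
    (31245, 58576), (31254, 4184), (31425, 34134), (31452, 16226), (31524, 6921), (31542, 1159),
    (32145, 8834), (32154, 631), (32415, 11871), (32451, 9604), (32514, 1524), (32541, 686),
    (34125, 42176), (34152, 21619), (34215, 4609), (34251, 4886), (34512, 26656), (34521, 1904),
    (35124, 11104), (35142, 2786), (35214, 1286), (35241, 1084), (35412, 1904), (35421, 136),
    (41235, 8780), (41253, 57700), (41325, 3780), (41352, 3670), (41523, 37770), (41532, 12800),
    (42135, 1210), (42153, 8900), (42315, 1380), (42351, 1820), (42513, 12690), (42531, 8800),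
    (43125, 4240), (43152, 4310), (43215, 410), (43251, 640), (43512, 6440), (43521, 460),
    (45123, 48860), (45132, 18130), (45213, 5530), (45231, 5180), (45312, 19600), (45321, 1400),
    (51234, 70570), (51243, 14300), (51324, 33495), (51342, 14105), (51423, 4680), (51432, 1450),
    (52134, 11015), (52143, 2350), (52314, 13770), (52341, 10330), (52413, 2685), (52431, 1700),
    (53124, 38360), (53142, 17740), (53214, 4240), (53241, 4310), (53412, 20860), (53421, 1490),
    (54123, 3490), (54132, 1295), (54213, 395), (54231, 370), (54312, 1400), (54321, 100)]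

/-- The rotation of a word that starts with the entry `0`. -/
def rotate0 (l : List ℕ) : List ℕ := l.dropWhile (fun a => !(a == 0)) ++ l.takeWhile fun a => !(a == 0)

/-- The stationary weight of a word of length `6`. -/
def wt (l : List ℕ) : ℕ :=
  match rotate0 l with
  | [_, a, b, c, d, e] => (table.lookup (10000 * a + 1000 * b + 100 * c + 10 * d + e)).getD 0
  | _ => 0

/-- Ten times the jump rate of an entry. -/
def rate (a : ℕ) : ℕ := if a = 3 then 1 else 10

/-- The balance equation at a word. -/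
def balanced : List ℕ → Bool
  | [a, b, c, d, e, f] =>
    (if f < a then rate f * wt [f, b, c, d, e, a] else 0) +
    (if a < b then rate a * wt [b, a, c, d, e, f] else 0) +
    (if b < c then rate b * wt [a, c, b, d, e, f] else 0) +
    (if c < d then rate c * wt [a, b, d, c, e, f] else 0) +
    (if d < e then rate d * wt [a, b, c, e, d, f] else 0) +
    (if e < f then rate e * wt [a, b, c, d, f, e] else 0) ==
    ((if a < f then rate a else 0) + (if b < a then rate b else 0) + (if c < b then rate c else 0) +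
      (if d < c then rate d else 0) + (if e < d then rate e else 0) + (if f < e then rate f else 0)) *
      wt [a, b, c, d, e, f]
  | _ => false

lemma balanced_all : ∀ l ∈ [0, 1, 2, 3, 4, 5].permutations', balanced l = true := by
  decide +kernel

lemma wt_pos_all : ∀ l ∈ [0, 1, 2, 3, 4, 5].permutations', 0 < wt l := by
  decide +kernel

/-- The word as a list. -/
def code (w : Word 6) : List ℕ := List.ofFn fun p => (w p : ℕ)

lemma code_eq (w : Word 6) : code w = [(w 0 : ℕ), (w 1 : ℕ), (w 2 : ℕ), (w 3 : ℕ), (w 4 : ℕ),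
    (w 5 : ℕ)] := by
  simp [code, List.ofFn_succ]

lemma code_mem (w : Word 6) : code w ∈ [0, 1, 2, 3, 4, 5].permutations' := by
  rw [List.mem_permutations']
  have h1 : code w = (List.finRange 6).map fun p => (w p : ℕ) := by
    rw [code, List.ofFn_eq_map]
  have h2 : ((List.finRange 6).map w).Perm (List.finRange 6) := by
    refine (List.perm_ext_iff_of_nodup ((List.nodup_finRange 6).map w.injective)
      (List.nodup_finRange 6)).2 fun a => ?_
    simp only [List.mem_map, List.mem_finRange, true_and, iff_true]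
    exact ⟨w.symm a, w.apply_symm_apply a⟩
  have h3 := h2.map (fun a : Fin 6 => (a : ℕ))
  rw [List.map_map] at h3
  rw [h1]
  exact h3

lemma code_injective : Function.Injective code := by
  intro v w h
  rw [code, code, List.ofFn_inj] at h
  ext p
  exact congrFun h p

section general

variable {t : Fin 6 → ℝ}

/-- The jump that swaps the entries at the positions `p` and `p - 1`. -/
abbrev sw (p : Fin 6) : Word 6 := Equiv.swap p (p - 1)

lemma ring_apply (w : Word 6) (p : Fin 6) :
    ring w (w p) = if w p < w (p - 1) then w * sw p else w := by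
  unfold ring
  rw [Equiv.symm_apply_apply]

/-- The inflow into `v`. -/
noncomputable def inflow (t : Fin 6 → ℝ) (μ : Word 6 → ℝ) (v : Word 6) : ℝ :=
  ∑ p, if v (p - 1) < v p then (t (v (p - 1)))⁻¹ * μ (v * sw p) else 0

/-- The total rate out of `v`. -/
noncomputable def outrate (t : Fin 6 → ℝ) (v : Word 6) : ℝ :=
  ∑ p, if v p < v (p - 1) then (t (v p))⁻¹ else 0

lemma dual (t : Fin 6 → ℝ) (μ f : Word 6 → ℝ) :
    ∑ w, μ w * ∑ i, (t i)⁻¹ * (f (ring w i) - f w)
      = ∑ v, (inflow t μ v - outrate t v * μ v) * f v := by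
  have h1 : ∀ w : Word 6, ∑ i, (t i)⁻¹ * (f (ring w i) - f w)
      = ∑ p, if w p < w (p - 1) then (t (w p))⁻¹ * (f (w * sw p) - f w) else 0 := by
    intro w
    rw [← Equiv.sum_comp w]
    refine Finset.sum_congr rfl fun p _ => ?_
    rw [ring_apply]
    split_ifs <;> simp
  have h2 : ∀ w : Word 6, μ w * ∑ i, (t i)⁻¹ * (f (ring w i) - f w)
      = (∑ p, if w p < w (p - 1) then (t (w p))⁻¹ * μ w * f (w * sw p) else 0)
        - outrate t w * μ w * f w := by
    intro w
    rw [h1, outrate, Finset.mul_sum, Finset.sum_mul, Finset.sum_mul, ← Finset.sum_sub_distrib]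
    refine Finset.sum_congr rfl fun p _ => ?_
    split_ifs <;> ring
  simp_rw [h2]
  rw [Finset.sum_sub_distrib, Finset.sum_comm]
  have h3 : ∀ p : Fin 6, ∑ w : Word 6, (if w p < w (p - 1) then (t (w p))⁻¹ * μ w * f (w * sw p)
      else 0) = ∑ v : Word 6, (if v (p - 1) < v p then (t (v (p - 1)))⁻¹ * μ (v * sw p) else 0)
        * f v := by
    intro p
    rw [← Equiv.sum_comp (Equiv.mulRight (sw p))]
    refine Finset.sum_congr rfl fun v _ => ?_
    have e1 : (v * sw p) p = v (p - 1) := by simp [sw]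
    have e2 : (v * sw p) (p - 1) = v p := by simp [sw]
    have e3 : v * sw p * sw p = v := by simp [sw, mul_assoc]
    rw [Equiv.coe_mulRight, e1, e2, e3]
    split_ifs <;> ring
  simp_rw [h3]
  rw [Finset.sum_comm, ← Finset.sum_sub_distrib]
  refine Finset.sum_congr rfl fun v _ => ?_
  rw [inflow, ← Finset.sum_mul]
  ring

lemma balance_of_stationary {μ : Word 6 → ℝ}
    (h : ∀ f : Word 6 → ℝ, ∑ w, μ w * ∑ i, (t i)⁻¹ * (f (ring w i) - f w) = 0) (v : Word 6) :
    inflow t μ v = outrate t v * μ v := by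
  classical
  have h1 := h fun w => if w = v then 1 else 0
  rw [dual t μ fun w => if w = v then 1 else 0] at h1
  simp only [mul_ite, mul_one, mul_zero, Finset.sum_ite_eq', Finset.mem_univ, if_true] at h1
  linarith

lemma stationary_of_balance {μ : Word 6 → ℝ} (h : ∀ v, inflow t μ v = outrate t v * μ v)
    (f : Word 6 → ℝ) : ∑ w, μ w * ∑ i, (t i)⁻¹ * (f (ring w i) - f w) = 0 := by
  rw [dual]
  refine Finset.sum_eq_zero fun v _ => ?_
  rw [h v, sub_self, zero_mul]

/-- A potential that increases along (non cyclic) jumps. -/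
def potential (w : Word 6) : ℤ := ∑ q : Fin 6, ((q : ℕ) : ℤ) * ((w q : ℕ) : ℤ)

lemma exists_descent {w : Word 6} (hw : w ≠ 1) :
    ∃ p : Fin 6, w p < w (p - 1) ∧ potential w < potential (w * sw p) := by
  have h1 : ∃ q : Fin 5, w q.succ < w q.castSucc := by
    by_contra hcon
    push Not at hcon
    refine hw ?_
    have hmono : StrictMono w := by
      refine Fin.strictMono_iff_lt_succ.2 fun q => lt_of_le_of_ne (hcon q) fun h => ?_
      have := w.injective h
      exact absurd this (Fin.castSucc_lt_succ (i := q)).ne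
    have h2 : hmono.orderIsoOfSurjective _ w.surjective = OrderIso.refl (Fin 6) :=
      Subsingleton.elim _ _
    ext p
    have h3 := congrArg (fun g : Fin 6 ≃o Fin 6 => g p) h2
    simp only [StrictMono.coe_orderIsoOfSurjective, OrderIso.refl_apply] at h3
    rw [h3]
    rfl
  obtain ⟨q, hq⟩ := h1
  have hq1 : ∀ q : Fin 5, q.succ - 1 = q.castSucc := by decide
  refine ⟨q.succ, by rw [hq1 q]; exact hq, ?_⟩
  have h3 : potential (w * sw q.succ)
      = ∑ r : Fin 6, (((sw q.succ r : Fin 6) : ℕ) : ℤ) * ((w r : ℕ) : ℤ) := by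
    unfold potential
    rw [← Equiv.sum_comp (sw q.succ)]
    refine Finset.sum_congr rfl fun r _ => ?_
    simp [sw]
  rw [h3]
  unfold potential
  rw [← sub_pos, ← Finset.sum_sub_distrib]
  have h4 : ∀ r : Fin 6, (((sw q.succ r : Fin 6) : ℕ) : ℤ) * ((w r : ℕ) : ℤ)
      - ((r : ℕ) : ℤ) * ((w r : ℕ) : ℤ)
      = (if r = q.castSucc then ((w r : ℕ) : ℤ) else 0)
        - if r = q.succ then ((w r : ℕ) : ℤ) else 0 := by
    intro r
    have h5 : ∀ (q : Fin 5) (r : Fin 6), (((sw q.succ r : Fin 6) : ℕ) : ℤ) - ((r : ℕ) : ℤ)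
        = (if r = q.castSucc then 1 else 0) - if r = q.succ then 1 else 0 := by
      unfold sw
      decide
    have h6 := h5 q r
    rw [← sub_mul, h6, sub_mul]
    split_ifs <;> simp
  rw [Finset.sum_congr rfl fun r _ => h4 r, Finset.sum_sub_distrib]
  simp only [Finset.sum_ite_eq', Finset.mem_univ, if_true]
  have h7 : (w q.succ : ℕ) < (w q.castSucc : ℕ) := hq
  omega

/-- If a nonnegative solution of the balance equations vanishes at the identity word, it vanishes. -/
lemma eq_zero_of_balance (ht : ∀ i, 0 < t i) {ν : Word 6 → ℝ} (h0 : ∀ w, 0 ≤ ν w)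
    (hb : ∀ v, inflow t ν v = outrate t v * ν v) (h1 : ν 1 = 0) (w : Word 6) : ν w = 0 := by
  by_contra hw
  obtain ⟨v, hv, hmax⟩ := (Finset.univ.filter fun w : Word 6 => ν w ≠ 0).exists_max_image potential
    ⟨w, by simp [hw]⟩
  rw [Finset.mem_filter] at hv
  have hv1 : v ≠ 1 := by
    rintro rfl
    exact hv.2 h1
  obtain ⟨p, hp, hpot⟩ := exists_descent hv1
  have h2 : ν (v * sw p) = 0 := by
    by_contra h3
    exact absurd (hmax _ (Finset.mem_filter.2 ⟨Finset.mem_univ _, h3⟩)) (not_le.2 hpot)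
  have h3 := hb (v * sw p)
  rw [h2, mul_zero, inflow, Finset.sum_eq_zero_iff_of_nonneg] at h3
  · have h4 := h3 p (Finset.mem_univ p)
    have e1 : (v * sw p) p = v (p - 1) := by simp [sw]
    have e2 : (v * sw p) (p - 1) = v p := by simp [sw]
    have e3 : v * sw p * sw p = v := by simp [sw, mul_assoc]
    rw [e1, e2, e3, if_pos hp] at h4
    rcases mul_eq_zero.1 h4 with h5 | h5
    · exact absurd h5 (inv_pos.2 (ht _)).ne'
    · exact hv.2 h5
  · intro q _
    split_ifs
    · exact mul_nonneg (inv_nonneg.2 (ht _).le) (h0 _)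
    · exact le_rfl

lemma sum_balance (t : Fin 6 → ℝ) (μ : Word 6 → ℝ) :
    ∑ v, inflow t μ v = ∑ v, outrate t v * μ v := by
  have h1 := dual t μ fun _ => 1
  simp only [sub_self, mul_zero, Finset.sum_const_zero, mul_one, Finset.sum_sub_distrib] at h1
  linarith

/-- The balance equations have at most one solution of total mass one. -/
lemma unique_of_balance (ht : ∀ i, 0 < t i) {μ : Word 6 → ℝ}
    (hb : ∀ v, inflow t μ v = outrate t v * μ v) (h0 : ∑ v, μ v = 0) (w : Word 6) : μ w = 0 := by
  have hrate : ∀ v, 0 ≤ outrate t v := fun v => Finset.sum_nonneg fun p _ => by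
    split_ifs
    · exact inv_nonneg.2 (ht _).le
    · exact le_rfl
  have hle : ∀ v, outrate t v * |μ v| ≤ inflow t (fun v => |μ v|) v := by
    intro v
    calc outrate t v * |μ v| = |inflow t μ v| := by rw [hb, abs_mul, abs_of_nonneg (hrate v)]
      _ ≤ ∑ p, |if v (p - 1) < v p then (t (v (p - 1)))⁻¹ * μ (v * sw p) else 0| :=
          Finset.abs_sum_le_sum_abs _ _
      _ = inflow t (fun v => |μ v|) v := by
          refine Finset.sum_congr rfl fun p _ => ?_
          split_ifs
          · rw [abs_mul, abs_of_nonneg (inv_nonneg.2 (ht _).le)]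
          · exact abs_zero
  have heq : ∀ v, outrate t v * |μ v| = inflow t (fun v => |μ v|) v := by
    have h1 := sum_balance t fun v => |μ v|
    have h2 := (Finset.sum_eq_sum_iff_of_le fun v _ => hle v).1 h1.symm
    exact fun v => h2 v (Finset.mem_univ v)
  have hlin : ∀ (c : ℝ) (v : Word 6), inflow t (fun v => |μ v| + c * μ v) v
      = inflow t (fun v => |μ v|) v + c * inflow t μ v := by
    intro c v
    unfold inflow
    rw [Finset.mul_sum, ← Finset.sum_add_distrib]
    refine Finset.sum_congr rfl fun p _ => ?_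
    split_ifs <;> ring
  have hb' : ∀ (c : ℝ) (v : Word 6), inflow t (fun v => |μ v| + c * μ v) v
      = outrate t v * (|μ v| + c * μ v) := by
    intro c v
    rw [hlin, ← heq, hb]
    ring
  have hnn1 : ∀ v, 0 ≤ |μ v| + 1 * μ v := fun v => by linarith [neg_abs_le (μ v)]
  have hnn2 : ∀ v, 0 ≤ |μ v| + (-1) * μ v := fun v => by linarith [le_abs_self (μ v)]
  rcases le_total (μ 1) 0 with h1 | h1
  · have h2 : ∀ v, |μ v| + 1 * μ v = 0 := eq_zero_of_balance ht hnn1 (hb' 1)
      (by rw [abs_of_nonpos h1]; ring)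
    have h3 : ∀ v, μ v ≤ 0 := fun v => by linarith [h2 v, abs_nonneg (μ v)]
    exact (Finset.sum_eq_zero_iff_of_nonpos fun v _ => h3 v).1 h0 w (Finset.mem_univ w)
  · have h2 : ∀ v, |μ v| + (-1) * μ v = 0 := eq_zero_of_balance ht hnn2 (hb' (-1))
      (by rw [abs_of_nonneg h1]; ring)
    have h3 : ∀ v, 0 ≤ μ v := fun v => by linarith [h2 v, abs_nonneg (μ v)]
    exact (Finset.sum_eq_zero_iff_of_nonneg fun v _ => h3 v).1 h0 w (Finset.mem_univ w)

end general

/-- The inverse rates `(1, 1, 1, 10, 1, 1)`. -/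
def t₀ : Fin 6 → ℝ := fun i => if i = 3 then 10 else 1

/-- The positions of the two small entries: the first and the fifth position. -/
def e₀ : Fin 2 ↪ Fin 6 := ⟨![0, 4], by decide⟩

/-- The stationary distribution. -/
noncomputable def π₀ (w : Word 6) : ℝ := (wt (code w) : ℝ) / ∑ v : Word 6, (wt (code v) : ℝ)

lemma t₀_pos (i : Fin 6) : 0 < t₀ i := by
  unfold t₀
  split_ifs <;> norm_num

lemma t₀_inv (i : Fin 6) : (t₀ i)⁻¹ = (rate i : ℝ) / 10 := by
  unfold t₀ rate
  by_cases h : i = 3
  · rw [if_pos h, if_pos (by rw [h]; rfl)]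
    norm_num
  · rw [if_neg h, if_neg (fun h' : (i : ℕ) = 3 => h (Fin.ext h'))]
    norm_num

lemma wt_pos (w : Word 6) : 0 < wt (code w) := wt_pos_all _ (code_mem w)

lemma total_pos : 0 < ∑ v : Word 6, (wt (code v) : ℝ) :=
  Finset.sum_pos (fun v _ => by exact_mod_cast wt_pos v) Finset.univ_nonempty

lemma π₀_pos (w : Word 6) : 0 < π₀ w := div_pos (by exact_mod_cast wt_pos w) total_pos

lemma term_in (P : Prop) [Decidable P] (i : Fin 6) (W : ℕ) (S : ℝ) :
    (if P then (t₀ i)⁻¹ * ((W : ℝ) / S) else 0)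
      = ((if P then rate i * W else 0 : ℕ) : ℝ) * (1 / (10 * S)) := by
  split_ifs
  · rw [t₀_inv]
    push_cast
    rw [one_div, mul_inv]
    ring
  · simp

lemma term_out (P : Prop) [Decidable P] (i : Fin 6) :
    (if P then (t₀ i)⁻¹ else 0) = ((if P then rate i else 0 : ℕ) : ℝ) * (1 / 10) := by
  split_ifs
  · rw [t₀_inv]
    ring
  · simp

lemma code_sw0 (v : Word 6) : code (v * sw 0) = [(v 5 : ℕ), (v 1 : ℕ), (v 2 : ℕ), (v 3 : ℕ),
    (v 4 : ℕ), (v 0 : ℕ)] := by
  have h : ∀ q, sw 0 q = ![5, 1, 2, 3, 4, 0] q := by decide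
  simp [code_eq, Equiv.Perm.mul_apply, h]

lemma code_sw1 (v : Word 6) : code (v * sw 1) = [(v 1 : ℕ), (v 0 : ℕ), (v 2 : ℕ), (v 3 : ℕ),
    (v 4 : ℕ), (v 5 : ℕ)] := by
  have h : ∀ q, sw 1 q = ![1, 0, 2, 3, 4, 5] q := by decide
  simp [code_eq, Equiv.Perm.mul_apply, h]

lemma code_sw2 (v : Word 6) : code (v * sw 2) = [(v 0 : ℕ), (v 2 : ℕ), (v 1 : ℕ), (v 3 : ℕ),
    (v 4 : ℕ), (v 5 : ℕ)] := by
  have h : ∀ q, sw 2 q = ![0, 2, 1, 3, 4, 5] q := by decide
  simp [code_eq, Equiv.Perm.mul_apply, h]

lemma code_sw3 (v : Word 6) : code (v * sw 3) = [(v 0 : ℕ), (v 1 : ℕ), (v 3 : ℕ), (v 2 : ℕ),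
    (v 4 : ℕ), (v 5 : ℕ)] := by
  have h : ∀ q, sw 3 q = ![0, 1, 3, 2, 4, 5] q := by decide
  simp [code_eq, Equiv.Perm.mul_apply, h]

lemma code_sw4 (v : Word 6) : code (v * sw 4) = [(v 0 : ℕ), (v 1 : ℕ), (v 2 : ℕ), (v 4 : ℕ),
    (v 3 : ℕ), (v 5 : ℕ)] := by
  have h : ∀ q, sw 4 q = ![0, 1, 2, 4, 3, 5] q := by decide
  simp [code_eq, Equiv.Perm.mul_apply, h]

lemma code_sw5 (v : Word 6) : code (v * sw 5) = [(v 0 : ℕ), (v 1 : ℕ), (v 2 : ℕ), (v 3 : ℕ),
    (v 5 : ℕ), (v 4 : ℕ)] := by
  have h : ∀ q, sw 5 q = ![0, 1, 2, 3, 5, 4] q := by decide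
  simp [code_eq, Equiv.Perm.mul_apply, h]

lemma balance₀ (v : Word 6) : inflow t₀ π₀ v = outrate t₀ v * π₀ v := by
  have h := balanced_all _ (code_mem v)
  rw [code_eq] at h
  simp only [balanced, beq_iff_eq] at h
  have h' := congrArg (fun x : ℕ => (x : ℝ)) h
  simp only [Nat.cast_add, Nat.cast_mul] at h'
  have d0 : (0 - 1 : Fin 6) = 5 := rfl
  have d1 : (1 - 1 : Fin 6) = 0 := rfl
  have d2 : (2 - 1 : Fin 6) = 1 := rfl
  have d3 : (3 - 1 : Fin 6) = 2 := rfl
  have d4 : (4 - 1 : Fin 6) = 3 := rfl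
  have d5 : (5 - 1 : Fin 6) = 4 := rfl
  unfold inflow outrate π₀
  simp only [Fin.sum_univ_six, d0, d1, d2, d3, d4, d5, code_sw0, code_sw1, code_sw2, code_sw3,
    code_sw4, code_sw5, term_in, term_out, Fin.lt_def]
  rw [code_eq v]
  rw [← add_mul, ← add_mul, ← add_mul, ← add_mul, ← add_mul, ← add_mul, ← add_mul, ← add_mul,
    ← add_mul, ← add_mul, h', one_div, mul_inv]
  ring

lemma stationary₀ : IsStationary t₀ π₀ := by
  refine ⟨fun w => (π₀_pos w).le, ?_, stationary_of_balance balance₀⟩
  unfold π₀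
  rw [← Finset.sum_div]
  exact div_self total_pos.ne'

lemma stationary_unique {π : Word 6 → ℝ} (h : IsStationary t₀ π) : π = π₀ := by
  have hb := balance_of_stationary h.2.2
  have h1 : ∀ v, inflow t₀ (fun w => π w - π₀ w) v = outrate t₀ v * (π v - π₀ v) := by
    intro v
    have h2 : inflow t₀ (fun w => π w - π₀ w) v = inflow t₀ π v - inflow t₀ π₀ v := by
      unfold inflow
      rw [← Finset.sum_sub_distrib]
      refine Finset.sum_congr rfl fun p _ => ?_
      split_ifs <;> ring
    rw [h2, hb, balance₀]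
    ring
  funext w
  have h2 := unique_of_balance t₀_pos h1 (by
    rw [Finset.sum_sub_distrib, h.2.1, stationary₀.2.1, sub_self]) w
  linarith

/-- The word `0 5 4 2 1 3`. -/
def wMin : Word 6 := ⟨![0, 5, 4, 2, 1, 3], ![0, 4, 3, 5, 2, 1], by decide, by decide⟩

/-- The word `0 5 4 3 1 2`. -/
def wD0 : Word 6 := ⟨![0, 5, 4, 3, 1, 2], ![0, 4, 5, 3, 2, 1], by decide, by decide⟩

/-- The word `0 4 3 2 1 5`. -/
def wD1 : Word 6 := ⟨![0, 4, 3, 2, 1, 5], ![0, 4, 3, 2, 1, 5], by decide, by decide⟩

/-- The word `0 3 2 5 1 4`. -/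
def wD2 : Word 6 := ⟨![0, 3, 2, 5, 1, 4], ![0, 4, 2, 1, 5, 3], by decide, by decide⟩

/-- The word `0 2 5 4 1 3`. -/
def wD3 : Word 6 := ⟨![0, 2, 5, 4, 1, 3], ![0, 4, 1, 5, 3, 2], by decide, by decide⟩

lemma mem_event₀ (w : Word 6) : w ∈ event e₀ ↔ (w 0 : ℕ) = 0 ∧ (w 4 : ℕ) = 1 := by
  unfold event e₀
  simp [Fin.forall_fin_two]

lemma arrangement_eq (w : Word 6) : arrangement 2 w = (code w).filter fun a => 2 ≤ a := rfl

lemma min_word : ∀ l ∈ [0, 1, 2, 3, 4, 5].permutations', l.getD 0 0 = 0 → l.getD 4 0 = 1 →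
    (l.filter fun a => 2 ≤ a) = [5, 4, 2, 3] → l = [0, 5, 4, 2, 1, 3] := by
  decide +kernel

lemma min_word' (w : Word 6) (h1 : w ∈ event e₀) (h2 : arrangement 2 w = [5, 4, 2, 3]) :
    w = wMin := by
  apply code_injective
  rw [mem_event₀] at h1
  have h3 := min_word (code w) (code_mem w) (by rw [code_eq]; simpa using h1.1)
    (by rw [code_eq]; simpa using h1.2) (by rw [← arrangement_eq]; exact h2)
  rw [h3]
  rfl

open Classical in
lemma condProb_min : condProb (k := 2) π₀ e₀ [5, 4, 2, 3]
    ≤ (395 / ∑ v : Word 6, (wt (code v) : ℝ)) / ∑ w with w ∈ event e₀, π₀ w := by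
  unfold condProb
  refine div_le_div_of_nonneg_right ?_ (Finset.sum_nonneg fun w _ => (π₀_pos w).le)
  calc ∑ w with w ∈ event e₀ ∧ arrangement 2 w = [5, 4, 2, 3], π₀ w
      ≤ ∑ w ∈ {wMin}, π₀ w := by
        refine Finset.sum_le_sum_of_subset_of_nonneg ?_ fun w _ _ => (π₀_pos w).le
        intro w hw
        rw [Finset.mem_filter] at hw
        rw [Finset.mem_singleton]
        exact min_word' w hw.2.1 hw.2.2
    _ = 395 / ∑ v : Word 6, (wt (code v) : ℝ) := by
        rw [Finset.sum_singleton, π₀]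
        have : wt (code wMin) = 395 := by decide +kernel
        rw [this]
        norm_num

open Classical in
lemma condProb_desc (w₀ : Word 6) (hw : w₀ ∈ event e₀) (h410 : 410 ≤ wt (code w₀)) :
    (410 / ∑ v : Word 6, (wt (code v) : ℝ)) / ∑ w with w ∈ event e₀, π₀ w
      ≤ condProb (k := 2) π₀ e₀ (arrangement 2 w₀) := by
  unfold condProb
  refine div_le_div_of_nonneg_right ?_ (Finset.sum_nonneg fun w _ => (π₀_pos w).le)
  calc 410 / ∑ v : Word 6, (wt (code v) : ℝ) ≤ π₀ w₀ := by
        unfold π₀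
        refine div_le_div_of_nonneg_right ?_ total_pos.le
        exact_mod_cast h410
    _ = ∑ w ∈ {w₀}, π₀ w := (Finset.sum_singleton _ _).symm
    _ ≤ ∑ w with w ∈ event e₀ ∧ arrangement 2 w = arrangement 2 w₀, π₀ w := by
        refine Finset.sum_le_sum_of_subset_of_nonneg ?_ fun w _ _ => (π₀_pos w).le
        intro w hw'
        rw [Finset.mem_singleton] at hw'
        subst hw'
        exact Finset.mem_filter.2 ⟨Finset.mem_univ _, hw, rfl⟩

lemma strict₀ (σ : List ℕ) (hσ : σ ~r (largeList 6 2).reverse) :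
    condProb (k := 2) π₀ e₀ [5, 4, 2, 3] < condProb (k := 2) π₀ e₀ σ := by
  classical
  have hZ : 0 < ∑ w with w ∈ event e₀, π₀ w := by
    refine Finset.sum_pos (fun w _ => π₀_pos w) ⟨wMin, ?_⟩
    rw [Finset.mem_filter, mem_event₀]
    exact ⟨Finset.mem_univ _, rfl, rfl⟩
  have h1 : ∃ w₀ : Word 6, w₀ ∈ event e₀ ∧ 410 ≤ wt (code w₀) ∧ arrangement 2 w₀ = σ := by
    have h2 : σ ∈ ((largeList 6 2).reverse).cyclicPermutations :=
      List.mem_cyclicPermutations_iff.2 hσ
    have h3 : ((largeList 6 2).reverse).cyclicPermutations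
        = [[5, 4, 3, 2], [4, 3, 2, 5], [3, 2, 5, 4], [2, 5, 4, 3]] := by decide +kernel
    rw [h3] at h2
    simp only [List.mem_cons, List.not_mem_nil, or_false] at h2
    rcases h2 with rfl | rfl | rfl | rfl
    · exact ⟨wD0, (mem_event₀ _).2 ⟨rfl, rfl⟩, by decide +kernel, by decide +kernel⟩
    · exact ⟨wD1, (mem_event₀ _).2 ⟨rfl, rfl⟩, by decide +kernel, by decide +kernel⟩
    · exact ⟨wD2, (mem_event₀ _).2 ⟨rfl, rfl⟩, by decide +kernel, by decide +kernel⟩
    · exact ⟨wD3, (mem_event₀ _).2 ⟨rfl, rfl⟩, by decide +kernel, by decide +kernel⟩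
  obtain ⟨w₀, hw₀, h410, rfl⟩ := h1
  refine condProb_min.trans_lt (lt_of_lt_of_le ?_ (condProb_desc w₀ hw₀ h410))
  refine div_lt_div_of_pos_right (div_lt_div_of_pos_right (by norm_num) total_pos) hZ

/-- The assertion of the problem is false: for `n = 6`, `k = 2` and the inverse rates
`(1, 1, 1, 10, 1, 1)`, with the (unique) stationary distribution and the event that the two small entries
are at the first and the fifth position, the arrangement `6 5 3 4` (here `5 4 2 3`) is strictly less
probable than every cyclically descending one. -/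
theorem result :
    (∃ (t : Fin 6 → ℝ) (π : Word 6 → ℝ) (e : Fin 2 ↪ Fin 6), (∀ i, 0 < t i) ∧ (∀ w, 0 < π w) ∧
      IsStationary t π ∧ (∀ π', IsStationary t π' → π' = π) ∧
      ∃ τ, τ ~ largeList 6 2 ∧ ∀ σ, σ ~r (largeList 6 2).reverse →
        condProb π e τ < condProb π e σ) ∧ ¬ Q1 := by
  have hτ : [5, 4, 2, 3] ~ largeList 6 2 := by decide +kernel
  refine ⟨⟨t₀, π₀, e₀, t₀_pos, π₀_pos, stationary₀, fun π' h => stationary_unique h,
    [5, 4, 2, 3], hτ, strict₀⟩, fun h => ?_⟩
  obtain ⟨-, σ, hσ, hmin⟩ := h 6 2 (by norm_num) (by norm_num) t₀ t₀_pos π₀ stationary₀ e₀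
  exact absurd (hmin _ hτ) (not_le.2 (strict₀ σ hσ))

end Pool.Agent.Results.MP_01b7fc_pr.DescendingNotMinimal
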